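import Pool.Agent.Y262.EG.Stm

/-!
# Project EG (helper262): few vectors stay in the region of small curvature
-/

set_option autoImplicit false

open Set Filter Topology MeasureTheory
open scoped ContDiff

noncomputable section

namespace Pool.Agent.Y693.EG

open Pool.Agent.Y262.EG

lemma stp_open (L δ : ℝ) : IsOpen (Stp L δ) :=
  (isOpen_lt continuous_const Complex.continuous_re).inter
    (isOpen_lt Complex.continuous_re continuous_const)

lemma stp_mono {L δ δ' : ℝ} (h : δ < δ') : Stp L δ ⊆ Stp L δ' := fun z hz =>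
  ⟨by linarith [hz.1], by linarith [hz.2]⟩

lemma closure_stp {L δ δ' : ℝ} (h : δ < δ') : closure (Stp L δ) ⊆ Stp L δ' := by
  have h1 : closure (Stp L δ) ⊆ {z : ℂ | -δ ≤ z.re ∧ z.re ≤ L + δ} :=
    closure_minimal (fun z hz => ⟨hz.1.le, hz.2.le⟩)
      ((isClosed_le continuous_const Complex.continuous_re).inter
        (isClosed_le Complex.continuous_re continuous_const))
  exact fun z hz => ⟨by linarith [(h1 hz).1], by linarith [(h1 hz).2]⟩

lemma tr_re (z : ℂ) (n : ℤ) : (z + n * (2 * Real.pi * Complex.I)).re = z.re := by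
  simp

lemma tr_im (z : ℂ) (n : ℤ) : (z + n * (2 * Real.pi * Complex.I)).im = z.im + n * (2 * Real.pi) := by
  simp

lemma tr_stp {L δ : ℝ} {z : ℂ} (n : ℤ) (hz : z ∈ Stp L δ) :
    z + n * (2 * Real.pi * Complex.I) ∈ Stp L δ := by
  refine ⟨?_, ?_⟩
  · rw [tr_re]; exact hz.1
  · rw [tr_re]; exact hz.2

lemma pr_int {M : Type} {pr : ℂ → M} {L δ : ℝ}
    (h : ∀ z ∈ Stp L δ, pr (z + 2 * Real.pi * Complex.I) = pr z) {z : ℂ} (hz : z ∈ Stp L δ) (n : ℤ) :
    pr (z + n * (2 * Real.pi * Complex.I)) = pr z := by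
  have h1 : ∀ (k : ℕ) (z : ℂ), z ∈ Stp L δ → pr (z + (k : ℤ) * (2 * Real.pi * Complex.I)) = pr z := by
    intro k
    induction k with
    | zero => intro z _; simp
    | succ k ih =>
        intro z hz
        have e : z + ((k + 1 : ℕ) : ℤ) * (2 * Real.pi * Complex.I) =
            (z + (k : ℤ) * (2 * Real.pi * Complex.I)) + 2 * Real.pi * Complex.I := by
          push_cast
          ring
        rw [e, h _ (tr_stp _ hz), ih z hz]
  rcases Int.eq_nat_or_neg n with ⟨k, rfl | rfl⟩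
  · exact h1 k z hz
  · have h2 := h1 k (z + ((-(k : ℤ) : ℤ) : ℂ) * (2 * Real.pi * Complex.I)) (tr_stp _ hz)
    rw [← h2]
    congr 1
    push_cast
    ring

/-- the range of a real number modulo `2π` -/
lemma mod_two_pi (x : ℝ) : ∃ n : ℤ, x + n * (2 * Real.pi) ∈ Icc 0 (2 * Real.pi) := by
  have hp := Real.two_pi_pos
  refine ⟨-⌊x / (2 * Real.pi)⌋, ?_⟩
  have h1 := Int.floor_le (x / (2 * Real.pi))
  have h2 := Int.lt_floor_add_one (x / (2 * Real.pi))
  rw [le_div_iff₀ hp] at h1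
  rw [div_lt_iff₀ hp] at h2
  push_cast
  constructor
  · linarith
  · linarith

lemma germ_angle {M : Type} {Ω : Set ℂ} {φ : ℂ → ℝ} {pr : ℂ → M} {p : Y} {w : ℂ} {θ : ℝ} (n : ℤ)
    (h : Germ Ω φ pr p (w, θ)) : Germ Ω φ pr p (w, θ + n * (2 * Real.pi)) := by
  obtain ⟨r, γ, h1, h2, h3, h4, h5, h6⟩ := h
  refine ⟨r, γ, h1, h2, h3, h4, h5, ?_⟩
  rw [← h6]
  congr 1
  have e : ((θ + n * (2 * Real.pi) : ℝ) : ℂ) * Complex.I = θ * Complex.I + n * (2 * Real.pi * Complex.I) := by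
    push_cast
    ring
  show Complex.exp (((θ + n * (2 * Real.pi) : ℝ) : ℂ) * Complex.I) = Complex.exp ((θ : ℂ) * Complex.I)
  rw [e, Complex.exp_add, Complex.exp_int_mul_two_pi_mul_I, mul_one]

/-- the region in which the vectors of long stay are found -/
def Bs (φ : ℂ → ℝ) (L δ ε : ℝ) : Set Y :=
  {p | p.1 ∈ Stp L δ ∧ p.1.im ∈ Icc 0 (2 * Real.pi) ∧ p.2 ∈ Icc 0 (2 * Real.pi) ∧
    |Real.exp (φ p.1) * (|Real.sin p.2|) - 1| ≤ ε}

lemma bs_meas {Ω : Set ℂ} {φ : ℂ → ℝ} (hφ : ContinuousOn φ Ω) {L δ : ℝ} (hΩ : Stp L δ ⊆ Ω) (ε : ℝ) :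
    MeasurableSet (Bs φ L δ ε) := by
  have hO : IsOpen {p : Y | p.1 ∈ Stp L δ} := (stp_open L δ).preimage continuous_fst
  have hf : ContinuousOn (fun p : Y => |Real.exp (φ p.1) * (|Real.sin p.2|) - 1|)
      {p : Y | p.1 ∈ Stp L δ} := by
    have h1 : ContinuousOn (fun p : Y => φ p.1) {p : Y | p.1 ∈ Stp L δ} :=
      hφ.comp continuous_fst.continuousOn fun p hp => hΩ hp
    have h2 : ContinuousOn (fun p : Y => |Real.sin p.2|) {p : Y | p.1 ∈ Stp L δ} :=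
      ((Real.continuous_sin.comp continuous_snd).abs).continuousOn
    exact (((Real.continuous_exp.comp_continuousOn h1).mul h2).sub continuousOn_const).abs
  have h3 := hf.isOpen_inter_preimage hO (isOpen_Ioi (a := ε))
  have e : Bs φ L δ ε = ({p : Y | p.1 ∈ Stp L δ} \ ({p : Y | p.1 ∈ Stp L δ} ∩
      (fun p : Y => |Real.exp (φ p.1) * (|Real.sin p.2|) - 1|) ⁻¹' Ioi ε)) ∩
      {p : Y | p.1.im ∈ Icc 0 (2 * Real.pi) ∧ p.2 ∈ Icc 0 (2 * Real.pi)} := by
    ext p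
    constructor
    · rintro ⟨g1, g2, g3, g4⟩
      exact ⟨⟨g1, fun h => absurd (h.2 : ε < _) (not_lt.2 g4)⟩, g2, g3⟩
    · rintro ⟨⟨g1, g4⟩, g2, g3⟩
      refine ⟨g1, g2, g3, ?_⟩
      by_contra hcon
      exact g4 ⟨g1, not_le.1 hcon⟩
  rw [e]
  refine (hO.measurableSet.diff h3.measurableSet).inter ?_
  refine MeasurableSet.inter ?_ ?_
  · exact (isClosed_Icc.preimage (Complex.continuous_im.comp continuous_fst)).measurableSet
  · exact (isClosed_Icc.preimage continuous_snd).measurableSet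

/-- the rectangle -/
def Rs (L δ : ℝ) : Set ℂ := {z | z ∈ Stp L δ ∧ z.im ∈ Icc 0 (2 * Real.pi)}

lemma rs_meas (L δ : ℝ) : MeasurableSet (Rs L δ) :=
  (stp_open L δ).measurableSet.inter (isClosed_Icc.preimage Complex.continuous_im).measurableSet

lemma rs_fin (L δ : ℝ) : volume (Rs L δ) < ⊤ := by
  have h1 : Rs L δ ⊆ Metric.closedBall 0 (|δ| + |L + δ| + 2 * Real.pi) := by
    intro z hz
    rw [mem_closedBall_zero_iff]
    have h2 := Complex.norm_le_abs_re_add_abs_im z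
    have h3 : |z.re| ≤ |δ| + |L + δ| := by
      rw [abs_le]
      have := hz.1.1
      have := hz.1.2
      constructor
      · linarith [le_abs_self δ, abs_nonneg (L + δ)]
      · linarith [abs_nonneg δ, le_abs_self (L + δ)]
    have h4 : |z.im| ≤ 2 * Real.pi := by
      rw [abs_of_nonneg hz.2.1]
      exact hz.2.2
    linarith
  exact (measure_mono h1).trans_lt (isCompact_closedBall _ _).measure_lt_top

lemma bs_vol {Ω : Set ℂ} {φ : ℂ → ℝ} (hφ : ContinuousOn φ Ω) {L δ : ℝ} (hΩ : Stp L δ ⊆ Ω) {C : ℝ}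
    (hC : ∀ a ε : ℝ, 0 < a → 0 ≤ ε → ε ≤ 1 →
      volume {θ : ℝ | θ ∈ Icc 0 (2 * Real.pi) ∧ |a * (|Real.sin θ|) - 1| ≤ ε} ≤
        ENNReal.ofReal (C * Real.sqrt ε)) {ε : ℝ} (h0 : 0 ≤ ε) (h1 : ε ≤ 1) :
    volume (Bs φ L δ ε) ≤ ENNReal.ofReal (C * Real.sqrt ε) * volume (Rs L δ) := by
  have hm := bs_meas hφ hΩ ε
  rw [Measure.volume_eq_prod, Measure.prod_apply hm]
  have h2 : ∀ z : ℂ, volume (Prod.mk z ⁻¹' Bs φ L δ ε) ≤
      (Rs L δ).indicator (fun _ => ENNReal.ofReal (C * Real.sqrt ε)) z := by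
    intro z
    by_cases hz : z ∈ Rs L δ
    · rw [indicator_of_mem hz]
      refine (measure_mono ?_).trans (hC (Real.exp (φ z)) ε (Real.exp_pos _) h0 h1)
      intro θ hθ
      exact ⟨hθ.2.2.1, hθ.2.2.2⟩
    · rw [indicator_of_notMem hz]
      have h3 : Prod.mk z ⁻¹' Bs φ L δ ε = ∅ := by
        ext θ
        constructor
        · intro hθ
          exact absurd ⟨hθ.1, hθ.2.1⟩ hz
        · intro hθ
          exact absurd hθ (notMem_empty _)
      rw [h3, measure_empty]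
  refine (lintegral_mono h2).trans ?_
  rw [lintegral_indicator (rs_meas L δ), setLIntegral_const]

/-- an orbit which stays over the cylinder stays in the strip -/
lemma stay {M : Type} {pr : ℂ → M} {L δ δ' : ℝ} (hδ : δ < δ')
    (inj : ∀ z ∈ Stp L δ', ∀ w ∈ Stp L δ', pr z = pr w →
      ∃ n : ℤ, w = z + n * (2 * Real.pi * Complex.I)) {a : ℝ → ℂ} (ha : Continuous a) {l : ℝ}
    (hl : 0 ≤ l) (h0 : a 0 ∈ Stp L δ) (h : ∀ t ∈ Icc 0 l, ∃ w ∈ Stp L δ, pr w = pr (a t)) :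
    ∀ t ∈ Icc 0 l, a t ∈ Stp L δ := by
  have hu : IsOpen (a ⁻¹' Stp L δ) := (stp_open L δ).preimage ha
  have h1 : Icc 0 l ⊆ a ⁻¹' Stp L δ := by
    refine isPreconnected_Icc.subset_of_closure_inter_subset hu ⟨0, ⟨le_refl _, hl⟩, h0⟩ ?_
    rintro t ⟨ht1, ht2⟩
    have h2 : a t ∈ closure (Stp L δ) := ha.closure_preimage_subset _ ht1
    have h3 : a t ∈ Stp L δ' := closure_stp hδ h2
    obtain ⟨w, hw, hwt⟩ := h t ht2
    obtain ⟨n, hn⟩ := inj (a t) h3 w (stp_mono hδ hw) hwt.symm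
    have h4 : w.re = (a t).re := by rw [hn, tr_re]
    show -δ < (a t).re ∧ (a t).re < L + δ
    rw [← h4]
    exact hw
  exact fun t ht => h1 ht

/-- **Few vectors stay in the region of small curvature.** -/
theorem clP : StUniq → StClair → StSin → StEt → StFinP → StFlP → StKP → StClP := by
  intro _ hClair hSin _ hFinP hFlP hKP M P _ _ _ _ _ _ Ω φ pr q m Fl L δ δ' κ C g hUT hL hG hCl
  obtain ⟨C1, hC1⟩ := hClair Ω φ L δ δ' g hUT.opn hUT.smooth hCl.posL hCl.posδ hCl.ltδ hCl.strip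
    hCl.rot hCl.flat (fun z hz => hCl.neg z (hCl.strip hz))
  obtain ⟨C2, hC2⟩ := hSin
  obtain ⟨hfin, -, hB⟩ := hFinP M P Ω φ pr q m hUT hL
  obtain ⟨hF1, -, -, -⟩ := hFlP M P Ω φ pr q Fl hUT hG
  obtain ⟨hK1, -, -, -, -⟩ := hKP M P Ω φ pr q L δ δ' κ C g hUT hCl
  have hδΩ : Stp L δ ⊆ Ω := (stp_mono hCl.ltδ).trans hCl.strip
  have hφ : ContinuousOn φ Ω := hUT.smooth.continuousOn
  -- the metric is bounded on the strip
  obtain ⟨G, hG1⟩ : ∃ G : ℝ, ∀ z ∈ Stp L δ, φ z ≤ G := by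
    have h1 : ContinuousOn (fun x : ℝ => φ (x : ℂ)) (Icc (-δ) (L + δ)) := by
      refine hφ.comp Complex.continuous_ofReal.continuousOn fun x hx => hCl.strip ?_
      have := hCl.ltδ
      refine ⟨?_, ?_⟩
      · rw [Complex.ofReal_re]
        linarith [hx.1]
      · rw [Complex.ofReal_re]
        linarith [hx.2]
    obtain ⟨G, hG⟩ := isCompact_Icc.bddAbove_image h1
    refine ⟨G, fun z hz => ?_⟩
    have h2 : ((z.re : ℝ) : ℂ) ∈ Stp L δ := by
      refine ⟨?_, ?_⟩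
      · rw [Complex.ofReal_re]; exact hz.1
      · rw [Complex.ofReal_re]; exact hz.2
    have h3 := hCl.rot z (stp_mono hCl.ltδ hz)
    have h4 := hCl.rot ((z.re : ℝ) : ℂ) (stp_mono hCl.ltδ h2)
    rw [Complex.ofReal_re] at h4
    rw [h3, ← h4]
    exact hG ⟨z.re, ⟨hz.1.le, hz.2.le⟩, rfl⟩
  -- the vectors of long stay
  have key : ∀ l : ℝ, 1 ≤ l → {x | ∀ t ∈ Icc 0 l, kP Ω φ q (FlP Ω q Fl t x) < κ} ⊆
      q '' Bs φ L δ (max C1 0 / l) := by
    intro l hl x hx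
    have hl0 : (0 : ℝ) < l := by linarith
    obtain ⟨p, hp, rfl⟩ : x ∈ q '' YO Ω := by rw [hUT.surjq]; exact mem_univ x
    have h1 : -κ < curv φ p.1 := by
      have := hx 0 ⟨le_refl _, hl0.le⟩
      rw [hF1 0 p hp, hG.zero p hp, (hK1 p hp).1] at this
      linarith
    obtain ⟨w, hw, hwp⟩ := hCl.low p.1 hp h1
    obtain ⟨n, hn⟩ := mod_two_pi w.im
    obtain ⟨w', hw'⟩ : ∃ w' : ℂ, w' = w + n * (2 * Real.pi * Complex.I) := ⟨_, rfl⟩
    have hw'S : w' ∈ Stp L δ := by rw [hw']; exact tr_stp n hw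
    have hw'p : pr p.1 = pr w' := by
      rw [hw', pr_int hCl.per (stp_mono hCl.ltδ hw) n, hwp]
    obtain ⟨θ, hθ⟩ := hUT.deck p.1 hp w' (hδΩ hw'S) hw'p p.2
    obtain ⟨k, hk⟩ := mod_two_pi θ
    have hge := germ_angle k hθ
    obtain ⟨p0, hp0⟩ : ∃ p0 : Y, p0 = (w', θ + k * (2 * Real.pi)) := ⟨_, rfl⟩
    rw [← hp0] at hge
    have hp0Ω : p0 ∈ YO Ω := by rw [hp0]; exact hδΩ hw'S
    have hq : q p = q p0 := (hUT.rel p hp p0 hp0Ω).2 hge
    have h2 : ∀ t ∈ Icc 0 l, -κ < curv φ (Fl t p0).1 := by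
      intro t ht
      have := hx t ht
      rw [hq, hF1 t p0 hp0Ω, (hK1 _ (hG.maps t p0 hp0Ω)).1] at this
      linarith
    have hcont : Continuous fun t => (Fl t p0).1 := by
      refine continuous_fst.comp ?_
      exact continuous_iff_continuousAt.2 fun t => (hG.ode t p0 hp0Ω).continuousAt
    have h3 := stay hCl.ltδ hCl.inj hcont hl0.le (by
      show (Fl 0 p0).1 ∈ Stp L δ
      rw [hG.zero p0 hp0Ω, hp0]
      exact hw'S) (fun t ht => hCl.low _ (hG.maps t p0 hp0Ω) (h2 t ht))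
    have h4 := hC1 Fl hG l hl p0 hp0Ω h3
    refine ⟨p0, ⟨?_, ?_, ?_, ?_⟩, hq.symm⟩
    · rw [hp0]; exact hw'S
    · rw [hp0]
      show w'.im ∈ Icc 0 (2 * Real.pi)
      rw [hw', tr_im]
      exact hn
    · rw [hp0]; exact hk
    · have h5 : φ p0.1 = g p0.1.re := hCl.rot _ (stp_mono hCl.ltδ (by rw [hp0]; exact hw'S))
      rw [h5]
      refine h4.trans ?_
      exact div_le_div_of_nonneg_right (le_max_left _ _) hl0.le
  obtain ⟨D, hD⟩ : ∃ D : ℝ, D = max C1 0 := ⟨_, rfl⟩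
  have hD0 : 0 ≤ D := by rw [hD]; exact le_max_right _ _
  rw [← hD] at key
  obtain ⟨E, hE⟩ : ∃ E : ℝ, E = max C2 0 := ⟨_, rfl⟩
  have hE0 : 0 ≤ E := by rw [hE]; exact le_max_right _ _
  have hC2' : ∀ a ε : ℝ, 0 < a → 0 ≤ ε → ε ≤ 1 →
      volume {θ : ℝ | θ ∈ Icc 0 (2 * Real.pi) ∧ |a * (|Real.sin θ|) - 1| ≤ ε} ≤
        ENNReal.ofReal (E * Real.sqrt ε) := fun a ε h1 h2 h3 =>
    (hC2 a ε h1 h2 h3).trans (ENNReal.ofReal_le_ofReal
      (mul_le_mul_of_nonneg_right (by rw [hE]; exact le_max_left _ _) (Real.sqrt_nonneg _)))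
  obtain ⟨V, hV⟩ : ∃ V : ℝ, V = (volume (Rs L δ)).toReal := ⟨_, rfl⟩
  have hV0 : 0 ≤ V := by rw [hV]; exact ENNReal.toReal_nonneg
  have hVe : volume (Rs L δ) = ENNReal.ofReal V := by
    rw [hV, ENNReal.ofReal_toReal (rs_fin L δ).ne]
  obtain ⟨W, hW⟩ : ∃ W : ℝ, W = (m univ).toReal := ⟨_, rfl⟩
  have hW0 : 0 ≤ W := by rw [hW]; exact ENNReal.toReal_nonneg
  have hWe : m univ = ENNReal.ofReal W := by
    rw [hW, ENNReal.ofReal_toReal (measure_ne_top m univ)]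
  refine ⟨Real.exp (2 * G) * (E * Real.sqrt D * V) + W * Real.sqrt D, fun l hl => ?_⟩
  have hl0 : (0 : ℝ) < l := by linarith
  have hsl : 0 < Real.sqrt l := Real.sqrt_pos.2 hl0
  have hsq : Real.sqrt (D / l) = Real.sqrt D / Real.sqrt l := Real.sqrt_div hD0 l
  by_cases hDl : D / l ≤ 1
  · refine (measure_mono (key l hl)).trans ?_
    have hsub : Bs φ L δ (D / l) ⊆ YO Ω := fun p hp => hδΩ hp.1
    refine ((hB _ (bs_meas hφ hδΩ _) hsub).2.2).trans ?_
    have h1 : ∫⁻ p in Bs φ L δ (D / l), ENNReal.ofReal (Real.exp (2 * φ p.1)) ≤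
        ∫⁻ p in Bs φ L δ (D / l), ENNReal.ofReal (Real.exp (2 * G)) := by
      refine setLIntegral_mono measurable_const fun p hp => ?_
      refine ENNReal.ofReal_le_ofReal (Real.exp_le_exp.2 ?_)
      linarith [hG1 p.1 hp.1]
    refine h1.trans ?_
    rw [setLIntegral_const]
    refine (mul_le_mul_right (bs_vol hφ hδΩ hC2' (by positivity) hDl) _).trans ?_
    rw [hVe, ← ENNReal.ofReal_mul (by positivity), ← ENNReal.ofReal_mul (by positivity)]
    refine ENNReal.ofReal_le_ofReal ?_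
    rw [hsq, le_div_iff₀ hsl]
    have e : Real.exp (2 * G) * (E * (Real.sqrt D / Real.sqrt l) * V) * Real.sqrt l =
        Real.exp (2 * G) * (E * Real.sqrt D * V) := by
      field_simp
    rw [e]
    have : 0 ≤ W * Real.sqrt D := by positivity
    linarith
  · refine (measure_mono (subset_univ _)).trans ?_
    rw [hWe]
    refine ENNReal.ofReal_le_ofReal ?_
    rw [le_div_iff₀ hsl]
    have h1 : Real.sqrt l ≤ Real.sqrt D := by
      refine Real.sqrt_le_sqrt ?_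
      have h2 := not_le.1 hDl
      rw [lt_div_iff₀ hl0] at h2
      linarith
    have h2 : 0 ≤ Real.exp (2 * G) * (E * Real.sqrt D * V) := by positivity
    have h3 := mul_le_mul_of_nonneg_left h1 hW0
    linarith

end Pool.Agent.Y693.EG
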